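import Pool.Agent.R838.IS.In7
import Pool.Agent.R838.ST.Cry

set_option autoImplicit false

/-!
# The Alternative Hypothesis and the spacings in the almost all sense
-/

namespace Pool.Agent.N731.HV

open Filter Topology Set
open Pool.Agent.R838.ST (CP SP ZOrd HOrd BS NearE ZetaZ Zi)
open Pool.Agent.R838.IS (closeZ closeH Cz Ch)

/-- the normalised spacing -/
noncomputable def dsp (n : ℕ) : ℝ :=
  1 / (2 * Real.pi) * (SG.ord (n + 1) * Real.log (SG.ord (n + 1))) -
    1 / (2 * Real.pi) * (SG.ord n * Real.log (SG.ord n))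

lemma d_near {x y L K : ℝ} (hx : 0 < x) (hxy : x ≤ y) (hL : 0 < L) (hK : |Real.log y - L| + 1 ≤ K) :
    |(1 / (2 * Real.pi) * (y * Real.log y) - 1 / (2 * Real.pi) * (x * Real.log x)) -
      (y - x) * (L / (2 * Real.pi))| ≤ (y - x) * (L / (2 * Real.pi)) * (K / L) := by
  have hy : 0 < y := by linarith
  have hpi := Real.pi_pos
  have h1 : 0 ≤ x * (Real.log y - Real.log x) := by
    have := Real.log_le_log hx hxy
    exact mul_nonneg hx.le (by linarith)
  have h2 : x * (Real.log y - Real.log x) ≤ y - x := by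
    rw [← Real.log_div hy.ne' hx.ne']
    have := Real.log_le_sub_one_of_pos (div_pos hy hx)
    calc x * Real.log (y / x) ≤ x * (y / x - 1) := mul_le_mul_of_nonneg_left this hx.le
      _ = y - x := by field_simp
  have e : (1 / (2 * Real.pi) * (y * Real.log y) - 1 / (2 * Real.pi) * (x * Real.log x)) -
      (y - x) * (L / (2 * Real.pi)) =
      ((y - x) * (Real.log y - L) + x * (Real.log y - Real.log x)) / (2 * Real.pi) := by
    field_simp
    ring
  have e2 : (y - x) * (L / (2 * Real.pi)) * (K / L) = (y - x) * K / (2 * Real.pi) := by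
    field_simp
  rw [e, e2, abs_div, abs_of_pos (show (0 : ℝ) < 2 * Real.pi by positivity)]
  apply div_le_div_of_nonneg_right _ (by positivity)
  have h3 : |(y - x) * (Real.log y - L) + x * (Real.log y - Real.log x)| ≤
      |(y - x) * (Real.log y - L)| + |x * (Real.log y - Real.log x)| := abs_add_le _ _
  rw [abs_mul, abs_of_nonneg (show 0 ≤ y - x by linarith), abs_of_nonneg h1] at h3
  have h4 : (y - x) * (|Real.log y - L| + 1) ≤ (y - x) * K := mul_le_mul_of_nonneg_left hK (by linarith)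
  have e3 : (y - x) * (|Real.log y - L| + 1) = (y - x) * |Real.log y - L| + (y - x) := by ring
  linarith

lemma NZ_bound : ∃ C : ℝ, 0 < C ∧ ∀ T : ℝ, 3 ≤ T → (SG.NZ T : ℝ) ≤ C * (T * Real.log T) := by
  obtain ⟨C, hC, h⟩ := SG.NZ_nat_bound
  refine ⟨(SG.NZ 3 : ℝ) + 4 * C, by positivity, fun T hT => ?_⟩
  have hT0 : 0 < T := by linarith
  obtain ⟨m, hm⟩ : ∃ m : ℕ, m = ⌈T⌉₊ := ⟨_, rfl⟩
  have h1 : T ≤ m := by rw [hm]; exact Nat.le_ceil T
  have h2 : (m : ℝ) ≤ T + 1 := by rw [hm]; exact (Nat.ceil_lt_add_one hT0.le).le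
  have h3 : 3 ≤ m := by
    have : (3 : ℝ) ≤ m := hT.trans h1
    exact_mod_cast this
  have h4 := h m h3
  have h5 : (SG.NZ T : ℝ) ≤ SG.NZ (m : ℝ) := by exact_mod_cast SG.NZ_mono h1
  have hlog1 : 1 ≤ Real.log T := by
    rw [Real.le_log_iff_exp_le hT0]
    have := Real.exp_one_lt_d9
    linarith
  have h6 : Real.log m ≤ 2 * Real.log T := by
    have h7 : Real.log m ≤ Real.log (T ^ 2) := by
      apply Real.log_le_log (by linarith)
      nlinarith
    rw [Real.log_pow] at h7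
    exact_mod_cast h7
  have h7 : (m : ℝ) ≤ 2 * T := by linarith
  have h8 : C * m * Real.log m ≤ C * (2 * T) * (2 * Real.log T) := by
    have h9 : 0 ≤ Real.log m := Real.log_nonneg (by linarith)
    have h10 : C * m ≤ C * (2 * T) := mul_le_mul_of_nonneg_left h7 hC.le
    exact mul_le_mul h10 h6 h9 (by positivity)
  have h9 : (SG.NZ 3 : ℝ) ≤ SG.NZ 3 * (T * Real.log T) := by
    have h10 : (1 : ℝ) ≤ T * Real.log T := by nlinarith
    exact le_mul_of_one_le_right (Nat.cast_nonneg _) h10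
  have e : C * (2 * T) * (2 * Real.log T) = 4 * C * (T * Real.log T) := by ring
  rw [e] at h8
  rw [add_mul]
  linarith

/-- the index of a consecutive pair -/
lemma cp_index {p : ℝ × ℝ} (hp : p ∈ CP ZOrd) (h0 : 0 < p.1) :
    1 ≤ SG.NZ p.1 ∧ SG.ord (SG.NZ p.1) = p.1 ∧ SG.ord (SG.NZ p.1 + 1) = p.2 := by
  obtain ⟨hlt, ⟨s, s1, s2, s3, s4⟩, ⟨w, w1, w2, w3, w4⟩, hno⟩ := hp
  have hs0 : 0 < s.im := by rw [s4]; exact h0
  have hw0 : 0 < w.im := by rw [w4]; linarith
  have hj := SG.jump_one s3 s1 s2 hs0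
  have hj2 := SG.jump_one w3 w1 w2 hw0
  have hm := SG.zmult_pos hs0 s3
  have hm2 := SG.zmult_pos hw0 w3
  rw [s4] at hj
  rw [w4] at hj2
  have h1 : 1 ≤ SG.NZ p.1 := by
    have := hj 0 h0
    omega
  have h2 : SG.ord (SG.NZ p.1) ≤ p.1 := (SG.ord_le_iff h1 _).2 le_rfl
  have h3 : p.1 ≤ SG.ord (SG.NZ p.1) := by
    by_contra hcon
    push Not at hcon
    have h4 := hj _ hcon
    have h5 := SG.le_NZ_ord h1
    omega
  have h4 : SG.ord (SG.NZ p.1 + 1) ≤ p.2 := by
    rw [SG.ord_le_iff (by omega)]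
    have := hj2 p.1 hlt
    omega
  refine ⟨h1, le_antisymm h2 h3, le_antisymm h4 ?_⟩
  by_contra hcon
  push Not at hcon
  obtain ⟨u, hu⟩ : ∃ u : ℝ, u = SG.ord (SG.NZ p.1 + 1) := ⟨_, rfl⟩
  rw [← hu] at hcon
  have h5 := SG.le_NZ_ord (show 1 ≤ SG.NZ p.1 + 1 by omega)
  rw [← hu] at h5
  have h6 : p.1 < u := by
    by_contra h7
    push Not at h7
    have := SG.NZ_mono h7
    omega
  have h7 := Pool.Agent.R838.IS.NZ_diff h6.le
  have h8 : ∑ s ∈ (SG.ZS_finite u).toFinset.filter (fun s => p.1 < s.im), SG.zmult s = 0 := by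
    apply Finset.sum_eq_zero
    intro z hz
    rw [Finset.mem_filter, Set.Finite.mem_toFinset] at hz
    obtain ⟨⟨z1, z2, z3, z4, z5⟩, z6⟩ := hz
    exact absurd ⟨z6, lt_of_le_of_lt z5 hcon⟩ (hno z.im ⟨z, z2, z3, z1, rfl⟩)
  omega

/-- the consecutive pairs up to `V` -/
lemma cp_count (V : ℝ) : {p : ℝ × ℝ | p ∈ CP ZOrd ∧ 0 < p.1 ∧ p.1 ≤ V}.Finite ∧
    {p : ℝ × ℝ | p ∈ CP ZOrd ∧ 0 < p.1 ∧ p.1 ≤ V}.ncard ≤ SG.NZ V := by
  classical
  have hinj : Set.InjOn (fun p : ℝ × ℝ => SG.NZ p.1) {p : ℝ × ℝ | p ∈ CP ZOrd ∧ 0 < p.1 ∧ p.1 ≤ V} := by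
    rintro p ⟨hp, hp0, -⟩ q ⟨hq, hq0, -⟩ hpq
    have hpq' : SG.NZ p.1 = SG.NZ q.1 := hpq
    obtain ⟨-, a1, a2⟩ := cp_index hp hp0
    obtain ⟨-, b1, b2⟩ := cp_index hq hq0
    refine Prod.ext ?_ ?_
    · rw [← a1, ← b1, hpq']
    · rw [← a2, ← b2, hpq']
  have hmaps : Set.MapsTo (fun p : ℝ × ℝ => SG.NZ p.1) {p : ℝ × ℝ | p ∈ CP ZOrd ∧ 0 < p.1 ∧ p.1 ≤ V}
      (Finset.Icc 1 (SG.NZ V) : Finset ℕ) := by
    rintro p ⟨hp, hp0, hpV⟩
    rw [Finset.mem_coe, Finset.mem_Icc]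
    exact ⟨(cp_index hp hp0).1, SG.NZ_mono hpV⟩
  have hfin := Set.Finite.of_injOn hmaps hinj (Finset.finite_toSet _)
  refine ⟨hfin, ?_⟩
  have h1 := Set.ncard_le_ncard_of_injOn _ hmaps hinj (Finset.finite_toSet _)
  rw [Set.ncard_coe_finset, Nat.card_Icc] at h1
  omega

/-- The set of the positive half-integers. -/
def Half : Set ℝ := {x | ∃ k : ℕ, 1 ≤ k ∧ x = k / 2}

lemma half_closed : IsClosed Half := by
  have e : Half = (fun x : ℝ => 2 * x) ⁻¹' (Set.range (fun n : ℤ => (n : ℝ))) ∩ Set.Ici (1 / 2) := by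
    ext x
    constructor
    · rintro ⟨k, hk, rfl⟩
      refine ⟨⟨(k : ℤ), by push_cast; ring⟩, ?_⟩
      have : (1 : ℝ) ≤ k := by exact_mod_cast hk
      rw [Set.mem_Ici]
      linarith
    · rintro ⟨⟨n, hn⟩, hx⟩
      rw [Set.mem_Ici] at hx
      have hn' : (n : ℝ) = 2 * x := hn
      have h1 : (1 : ℝ) ≤ n := by rw [hn']; linarith
      have h2 : 1 ≤ n := by exact_mod_cast h1
      refine ⟨n.toNat, by omega, ?_⟩
      have h3 : ((n.toNat : ℕ) : ℤ) = n := Int.toNat_of_nonneg (by omega)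
      have h4 : ((n.toNat : ℕ) : ℝ) = (n : ℝ) := by exact_mod_cast h3
      rw [h4, hn']
      ring
  rw [e]
  exact (Int.isClosedEmbedding_coe_real.isClosed_range.preimage (by fun_prop)).inter isClosed_Ici

/-- The Alternative Hypothesis. -/
def AHz : Prop := ∀ ε : ℝ, 0 < ε → ∃ j₀ : ℕ, ∀ j : ℕ, j₀ ≤ j → ∃ k : ℕ, 1 ≤ k ∧ |dsp j - k / 2| < ε

lemma ah_far (hAH : AHz) {c : ℝ} (hc : 0 < c) : ∃ V : ℝ, ∀ n : ℕ, 1 ≤ n → V < SG.ord n →
    ∃ k : ℕ, 1 ≤ k ∧ |dsp n - k / 2| < c := by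
  obtain ⟨j0, h⟩ := hAH c hc
  refine ⟨SG.ord (max j0 1), fun n hn hV => h n ?_⟩
  by_contra hcon
  push Not at hcon
  have := SG.ord_mono hn (show n ≤ max j0 1 by omega)
  linarith

theorem ah_near (hAH : AHz) : NearE (fun T α β => ((SP ZOrd T α β).ncard : ℝ)) Half := by
  intro α β hα hαβ hdis
  obtain ⟨c, hc, hcdis⟩ := hdis.exists_cthickenings isCompact_Icc half_closed
  have hfar : ∀ u : ℝ, α ≤ u → u ≤ β → ∀ k : ℕ, 1 ≤ k → c < |u - k / 2| := by
    intro u h1 h2 k hk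
    by_contra hcon
    push Not at hcon
    have a1 : u ∈ Metric.cthickening c (Icc α β) := Metric.self_subset_cthickening _ ⟨h1, h2⟩
    have a2 : u ∈ Metric.cthickening c Half :=
      Metric.mem_cthickening_of_dist_le u (k / 2) c _ ⟨k, hk, rfl⟩ (by rw [Real.dist_eq]; exact hcon)
    exact Set.disjoint_left.1 hcdis a1 a2
  obtain ⟨V, hV⟩ := ah_far hAH (show 0 < c / 2 by positivity)
  obtain ⟨C, hC, hNZ⟩ := NZ_bound
  rw [Metric.tendsto_nhds]
  intro η hη
  obtain ⟨θ, hθ⟩ : ∃ θ : ℝ, θ = min 1 (η / (2 * C)) := ⟨_, rfl⟩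
  have hθ0 : 0 < θ := by rw [hθ]; exact lt_min one_pos (by positivity)
  have hθ1 : θ ≤ 1 := by rw [hθ]; exact min_le_left _ _
  have hθ2 : C * θ ≤ η / 2 := by
    have h1 : θ ≤ η / (2 * C) := by rw [hθ]; exact min_le_right _ _
    calc C * θ ≤ C * (η / (2 * C)) := mul_le_mul_of_nonneg_left h1 hC.le
      _ = η / 2 := by field_simp
  obtain ⟨K, hK⟩ : ∃ K : ℝ, K = |Real.log θ| + 1 := ⟨_, rfl⟩
  have hK0 : 0 < K := by rw [hK]; positivity
  have hβ : 0 < β := by linarith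
  filter_upwards [eventually_gt_atTop (Real.exp (2 * β * K / c)), eventually_ge_atTop (V / θ),
    eventually_ge_atTop (3 / θ), eventually_gt_atTop (1 : ℝ)] with T hT1 hT2 hT3 hT4
  have hT0 : 0 < T := by linarith
  have hL : 0 < Real.log T := Real.log_pos hT4
  rw [div_le_iff₀ hθ0] at hT2 hT3
  have hL2 : 2 * β * K / c < Real.log T := by rw [Real.lt_log_iff_exp_lt hT0]; exact hT1
  rw [div_lt_iff₀ hc] at hL2
  have hsub : SP ZOrd T α β ⊆ {p : ℝ × ℝ | p ∈ CP ZOrd ∧ 0 < p.1 ∧ p.1 ≤ θ * T} := by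
    rintro p ⟨h1, h2, h3, h4, h5⟩
    refine ⟨h1, h2, ?_⟩
    by_contra hcon
    push Not at hcon
    obtain ⟨i1, i2, i3⟩ := cp_index h1 h2
    obtain ⟨k, hk, hk2⟩ := hV _ i1 (by rw [i2]; linarith)
    have h12 : p.1 < p.2 := h1.1
    have hlog : |Real.log p.2 - Real.log T| + 1 ≤ K := by
      have a1 : Real.log p.2 ≤ Real.log T := Real.log_le_log (by linarith) h3
      have a2 : Real.log θ + Real.log T ≤ Real.log p.2 := by
        rw [← Real.log_mul hθ0.ne' hT0.ne']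
        exact Real.log_le_log (by positivity) (by linarith)
      have a3 := neg_abs_le (Real.log θ)
      rw [hK, abs_of_nonpos (by linarith)]
      linarith
    have h6 := d_near h2 h12.le hL hlog
    have h7 : (p.2 - p.1) * (Real.log T / (2 * Real.pi)) * (K / Real.log T) ≤ c / 2 := by
      calc (p.2 - p.1) * (Real.log T / (2 * Real.pi)) * (K / Real.log T) ≤ β * (K / Real.log T) :=
            mul_le_mul_of_nonneg_right h5 (by positivity)
        _ ≤ c / 2 := by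
            rw [← mul_div_assoc, div_le_iff₀ hL]
            linarith
    have h8 : dsp (SG.NZ p.1) = 1 / (2 * Real.pi) * (p.2 * Real.log p.2) -
        1 / (2 * Real.pi) * (p.1 * Real.log p.1) := by
      unfold dsp
      rw [i2, i3]
    rw [← h8] at h6
    have h9 := hfar _ h4 h5 k hk
    have h10 : |(p.2 - p.1) * (Real.log T / (2 * Real.pi)) - k / 2| ≤
        |dsp (SG.NZ p.1) - (p.2 - p.1) * (Real.log T / (2 * Real.pi))| + |dsp (SG.NZ p.1) - k / 2| := by
      have := abs_sub_le ((p.2 - p.1) * (Real.log T / (2 * Real.pi))) (dsp (SG.NZ p.1)) (k / 2)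
      rw [abs_sub_comm _ (dsp (SG.NZ p.1))] at this
      exact this
    linarith
  obtain ⟨hf, hc1⟩ := cp_count (θ * T)
  have h1 := (Set.ncard_le_ncard hsub hf).trans hc1
  have h2 := hNZ (θ * T) (by linarith)
  have h3 : Real.log (θ * T) ≤ Real.log T := by
    apply Real.log_le_log (by positivity)
    have := mul_le_mul_of_nonneg_right hθ1 hT0.le
    linarith
  have h4 : C * (θ * T * Real.log (θ * T)) ≤ C * (θ * T * Real.log T) :=
    mul_le_mul_of_nonneg_left (mul_le_mul_of_nonneg_left h3 (by positivity)) hC.le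
  have hD : 0 < T * Real.log T := by positivity
  have h5 : C * (θ * T * Real.log T) ≤ η / 2 * (T * Real.log T) := by
    have e : C * (θ * T * Real.log T) = C * θ * (T * Real.log T) := by ring
    rw [e]
    exact mul_le_mul_of_nonneg_right hθ2 hD.le
  have h6 : ((SP ZOrd T α β).ncard : ℝ) ≤ (SG.NZ (θ * T) : ℝ) := by exact_mod_cast h1
  rw [Real.dist_eq, sub_zero, abs_of_nonneg (by positivity), div_lt_iff₀ hD]
  have h7 : η / 2 * (T * Real.log T) < η * (T * Real.log T) := mul_lt_mul_of_pos_right (by linarith) hD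
  linarith

theorem ah_close (hAH : AHz) {lam : ℝ} (hlam : lam < 1 / 2) : ∀ᶠ T : ℝ in atTop, closeZ T lam = ∅ := by
  obtain ⟨l1, hl1⟩ : ∃ l1 : ℝ, l1 = max lam 0 := ⟨_, rfl⟩
  have g3 : 0 ≤ l1 := by rw [hl1]; exact le_max_right _ _
  have g4 : lam ≤ l1 := by rw [hl1]; exact le_max_left _ _
  have g5 : l1 < 1 / 2 := by rw [hl1]; exact max_lt hlam (by norm_num)
  obtain ⟨c, hc⟩ : ∃ c : ℝ, c = 1 / 2 - l1 := ⟨_, rfl⟩
  have hc0 : 0 < c := by rw [hc]; linarith
  obtain ⟨V, hV⟩ := ah_far hAH (show 0 < c / 2 by positivity)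
  have hpi := Real.pi_pos
  filter_upwards [eventually_gt_atTop (Real.exp (4 / c)), eventually_gt_atTop (V + 1),
    eventually_gt_atTop (Real.exp (2 * Real.pi)), eventually_gt_atTop (3 : ℝ)] with T hT1 hT2 hT3 hT4
  have hT0 : 0 < T := by linarith
  have hL : 0 < Real.log T := Real.log_pos (by linarith)
  have hL2 : 4 / c < Real.log T := by rw [Real.lt_log_iff_exp_lt hT0]; exact hT1
  have hL3 : 2 * Real.pi < Real.log T := by rw [Real.lt_log_iff_exp_lt hT0]; exact hT3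
  rw [div_lt_iff₀ hc0] at hL2
  rw [Set.eq_empty_iff_forall_notMem]
  rintro p ⟨⟨p1, p2, p3⟩, ⟨p4, p5⟩, p6⟩
  have hp0 : 0 < p.1.im := by linarith
  have hz : riemannZeta p.1 = 0 := by
    by_contra hcon
    have hne : p.1 ≠ 1 := by
      intro h
      rw [h] at hp0
      simp at hp0
    have h7 := (SG.zeta_an hne).analyticOrderAt_eq_zero.2 hcon
    have h8 : analyticOrderNatAt riemannZeta p.1 = 0 := by
      unfold analyticOrderNatAt
      rw [h7]; rfl
    omega
  obtain ⟨x, hx⟩ : ∃ x : ℝ, x = 2 * Real.pi * l1 / Real.log T := ⟨_, rfl⟩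
  have hx0 : 0 ≤ x := by rw [hx]; positivity
  have hx1 : x ≤ 1 := by
    rw [hx, div_le_one hL]
    have := mul_le_mul_of_nonneg_left (show l1 ≤ 1 by linarith) (show 0 ≤ 2 * Real.pi by positivity)
    linarith
  obtain ⟨n, hn, c1, c2, c3⟩ := Pool.Agent.R838.IS.cons_of_close (x := x) hz p1 p2 hp0 hx0 (by
    rcases p6 with h | ⟨w, w1, w2, w3, w4, w5, w6⟩
    · exact Or.inl h
    · refine Or.inr ⟨w, w1, w2, w3, w4, w5, ?_⟩
      rw [hx, le_div_iff₀ hL]
      refine w6.trans ?_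
      exact mul_le_mul_of_nonneg_left g4 (by positivity))
  obtain ⟨k, hk, hk2⟩ := hV n hn (by linarith)
  have hxn : 0 < SG.ord n := by linarith
  have hmono := SG.ord_mono hn (show n ≤ n + 1 by omega)
  have hlog : |Real.log (SG.ord (n + 1)) - Real.log T| + 1 ≤ 4 := by
    have e4 : Real.log T ≤ Real.log (SG.ord (n + 1)) + 1 := by
      have h1 : T / 2 ≤ SG.ord (n + 1) := by linarith
      have h2 : Real.log (T / 2) ≤ Real.log (SG.ord (n + 1)) := Real.log_le_log (by positivity) h1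
      rw [Real.log_div hT0.ne' (by norm_num)] at h2
      have := Real.log_two_lt_d9
      linarith
    have e5 : Real.log (SG.ord (n + 1)) ≤ Real.log T + 2 := by
      have h1 : SG.ord (n + 1) ≤ T * 4 := by linarith
      have h2 : Real.log (SG.ord (n + 1)) ≤ Real.log (T * 4) := Real.log_le_log (by linarith) h1
      rw [Real.log_mul hT0.ne' (by norm_num)] at h2
      have h3 : Real.log 4 = 2 * Real.log 2 := by
        rw [show (4 : ℝ) = 2 ^ 2 by norm_num, Real.log_pow]; norm_num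
      have := Real.log_two_lt_d9
      linarith
    have h6 : |Real.log (SG.ord (n + 1)) - Real.log T| ≤ 2 := abs_le.2 ⟨by linarith, by linarith⟩
    linarith
  have h6 := d_near hxn hmono hL hlog
  have hg : (SG.ord (n + 1) - SG.ord n) * (Real.log T / (2 * Real.pi)) ≤ l1 := by
    calc (SG.ord (n + 1) - SG.ord n) * (Real.log T / (2 * Real.pi)) ≤ x * (Real.log T / (2 * Real.pi)) :=
          mul_le_mul_of_nonneg_right c3 (by positivity)
      _ = l1 := by rw [hx]; field_simp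
  have h7 : (SG.ord (n + 1) - SG.ord n) * (Real.log T / (2 * Real.pi)) * (4 / Real.log T) ≤ c / 2 := by
    calc (SG.ord (n + 1) - SG.ord n) * (Real.log T / (2 * Real.pi)) * (4 / Real.log T) ≤ l1 * (4 / Real.log T) :=
          mul_le_mul_of_nonneg_right hg (by positivity)
      _ ≤ 1 / 2 * (4 / Real.log T) := mul_le_mul_of_nonneg_right g5.le (by positivity)
      _ ≤ c / 2 := by
          rw [← mul_div_assoc, div_le_iff₀ hL]
          linarith
  have h8 : |dsp n - (SG.ord (n + 1) - SG.ord n) * (Real.log T / (2 * Real.pi))| ≤ c / 2 := h6.trans h7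
  have h9 := (abs_le.1 h8).2
  have h10 := (abs_lt.1 hk2).1
  have h11 : (1 : ℝ) ≤ k := by exact_mod_cast hk
  linarith

end Pool.Agent.N731.HV
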