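import Pool.Agent.R838.ST.Zcor
import Pool.Agent.R838.IS.In5

set_option autoImplicit false

/-!
# Correlations of the zeros along the heat flow
-/

namespace Pool.Agent.N731.HV

open Filter Topology Set MeasureTheory
open Pool.Agent.R838.ST (Tuples ZetaZ Zi CT ZS)
open Pool.Agent.R838.CR (regH irrH)
open Pool.Agent.H986R2.DBN (XT Ht)
open Pool.Agent.H24R2.JP (Om)

lemma box_cont {k : ℕ} {D : (Fin k → ℝ) → ℝ} (hD : LocallyIntegrable D) (α β : Fin k → ℝ) :
    Tendsto (fun e : ℝ => ∫ u in Icc (fun i => α i - e) (fun i => β i + e), D u) (𝓝 0)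
      (𝓝 (∫ u in Icc α β, D u)) := by
  have e1 : ∀ e : ℝ, ∫ u in Icc (fun i => α i - e) (fun i => β i + e), D u =
      ∫ u, (Icc (fun i => α i - e) (fun i => β i + e)).indicator D u :=
    fun e => (integral_indicator measurableSet_Icc).symm
  rw [← integral_indicator (f := D) (measurableSet_Icc (a := α) (b := β))]
  simp_rw [e1]
  refine tendsto_integral_filter_of_dominated_convergence
    ((Icc (fun i => α i - 1) (fun i => β i + 1)).indicator (fun u => ‖D u‖)) ?_ ?_ ?_ ?_
  · exact Eventually.of_forall fun e => hD.aestronglyMeasurable.indicator measurableSet_Icc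
  · filter_upwards [Metric.ball_mem_nhds (0 : ℝ) one_pos] with e he
    rw [Metric.mem_ball, Real.dist_eq, sub_zero, abs_lt] at he
    refine Eventually.of_forall fun u => ?_
    by_cases hu : u ∈ Icc (fun i => α i - e) (fun i => β i + e)
    · rw [indicator_of_mem hu, indicator_of_mem]
      refine ⟨fun i => ?_, fun i => ?_⟩
      · have := hu.1 i
        simp only at this ⊢
        linarith
      · have := hu.2 i
        simp only at this ⊢
        linarith
    · rw [indicator_of_notMem hu, norm_zero]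
      exact indicator_nonneg (fun _ _ => norm_nonneg _) _
  · rw [integrable_indicator_iff measurableSet_Icc]
    exact (hD.integrableOn_isCompact isCompact_Icc).norm
  · have h1 : ∀ᵐ u : Fin k → ℝ, ∀ i, u i ≠ α i ∧ u i ≠ β i := by
      rw [ae_all_iff]
      intro i
      have h2 : ∀ c : ℝ, ∀ᵐ u : Fin k → ℝ, u i ≠ c := by
        intro c
        have h3 := Measure.pi_hyperplane (fun _ : Fin k => (volume : Measure ℝ)) i c
        rw [← volume_pi] at h3
        exact measure_eq_zero_iff_ae_notMem.1 h3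
      filter_upwards [h2 (α i), h2 (β i)] with u a b
      exact ⟨a, b⟩
    filter_upwards [h1] with u hu
    by_cases hm : u ∈ Icc α β
    · apply tendsto_const_nhds.congr'
      have h2 : ∀ᶠ e : ℝ in 𝓝 0, ∀ i, α i - e ≤ u i ∧ u i ≤ β i + e := by
        rw [eventually_all]
        intro i
        have a1 : α i < u i := lt_of_le_of_ne (hm.1 i) (Ne.symm (hu i).1)
        have a2 : u i < β i := lt_of_le_of_ne (hm.2 i) (hu i).2
        have b1 : ∀ᶠ e : ℝ in 𝓝 0, α i - u i < e := lt_mem_nhds (by linarith)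
        have b2 : ∀ᶠ e : ℝ in 𝓝 0, u i - β i < e := lt_mem_nhds (by linarith)
        filter_upwards [b1, b2] with e c1 c2
        exact ⟨by linarith, by linarith⟩
      filter_upwards [h2] with e he
      rw [indicator_of_mem hm, indicator_of_mem]
      exact ⟨fun i => (he i).1, fun i => (he i).2⟩
    · apply tendsto_const_nhds.congr'
      have h2 : ∃ i, u i < α i ∨ β i < u i := by
        by_contra hcon
        push Not at hcon
        exact hm ⟨fun i => (hcon i).1, fun i => (hcon i).2⟩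
      obtain ⟨i, hi⟩ := h2
      have h3 : ∀ᶠ e : ℝ in 𝓝 0, ¬ (α i - e ≤ u i ∧ u i ≤ β i + e) := by
        rcases hi with hi | hi
        · have b1 : ∀ᶠ e : ℝ in 𝓝 0, e < α i - u i := gt_mem_nhds (by linarith)
          filter_upwards [b1] with e c1 c2
          linarith [c2.1]
        · have b1 : ∀ᶠ e : ℝ in 𝓝 0, e < u i - β i := gt_mem_nhds (by linarith)
          filter_upwards [b1] with e c1 c2
          linarith [c2.2]
      filter_upwards [h3] with e he
      rw [indicator_of_notMem hm, indicator_of_notMem]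
      exact fun h4 => he ⟨h4.1 i, h4.2 i⟩

/-- The numbers `N T α β`, divided by `(T / 2π) log T`, converge to the integral of `D` over the box. -/
def Law {k : ℕ} (N : ℝ → (Fin k → ℝ) → (Fin k → ℝ) → ℝ) (D : (Fin k → ℝ) → ℝ) : Prop :=
  ∀ α β : Fin k → ℝ, (∀ i, α i < β i) →
    Tendsto (fun T : ℝ => N T α β / (T / (2 * Real.pi) * Real.log T)) atTop (𝓝 (∫ u in Icc α β, D u))

lemma law_tr {k : ℕ} {N1 N2 : ℝ → (Fin k → ℝ) → (Fin k → ℝ) → ℝ} {D : (Fin k → ℝ) → ℝ} (hD : LocallyIntegrable D)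
    (h : ∀ (α β : Fin k → ℝ) (ε : ℝ), 0 < ε → ∀ᶠ T : ℝ in atTop,
      N1 T α β ≤ N2 T (fun i => α i - ε) (fun i => β i + ε) + ε * (T * Real.log T) ∧
      N2 T α β ≤ N1 T (fun i => α i - ε) (fun i => β i + ε) + ε * (T * Real.log T))
    (h1 : Law N1 D) : Law N2 D := by
  intro α β hαβ
  have hpi := Real.pi_pos
  have hbc := box_cont hD α β
  rw [Metric.tendsto_nhds] at hbc ⊢
  intro η hη
  have h2 := hbc (η / 4) (by positivity)
  rw [Metric.eventually_nhds_iff] at h2
  obtain ⟨r, hr, h2⟩ := h2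
  have h3 : ∀ᶠ e : ℝ in 𝓝[>] 0, ∀ i, α i + e < β i - e := by
    rw [eventually_all]
    intro i
    have b1 : ∀ᶠ e : ℝ in 𝓝 0, e < (β i - α i) / 2 := gt_mem_nhds (by have := hαβ i; linarith)
    filter_upwards [b1.filter_mono nhdsWithin_le_nhds] with e he
    linarith
  have h4 : ∀ᶠ e : ℝ in 𝓝[>] 0, e < min r (η / (16 * Real.pi)) :=
    (gt_mem_nhds (by positivity : (0 : ℝ) < min r (η / (16 * Real.pi)))).filter_mono nhdsWithin_le_nhds
  obtain ⟨e, he1, he2, he0⟩ := (h3.and (h4.and self_mem_nhdsWithin)).exists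
  have he0' : 0 < e := he0
  have hr1 : e < r := he2.trans_le (min_le_left _ _)
  have hr2 : e < η / (16 * Real.pi) := he2.trans_le (min_le_right _ _)
  rw [lt_div_iff₀ (by positivity)] at hr2
  have g1 := h2 (y := e) (by rw [Real.dist_eq, sub_zero, abs_of_pos he0']; exact hr1)
  have g2 := h2 (y := -e) (by rw [Real.dist_eq, sub_zero, abs_neg, abs_of_pos he0']; exact hr1)
  have L1 := h1 (fun i => α i - e) (fun i => β i + e) (fun i => by have := hαβ i; linarith)
  have L2 := h1 (fun i => α i - -e) (fun i => β i + -e) (fun i => by have := he1 i; linarith)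
  rw [Metric.tendsto_nhds] at L1 L2
  filter_upwards [L1 (η / 4) (by positivity), L2 (η / 4) (by positivity), h α β e he0',
    h (fun i => α i - -e) (fun i => β i + -e) e he0', eventually_gt_atTop (1 : ℝ)] with T a1 a2 a3 a4 hT
  have hL : 0 < Real.log T := Real.log_pos hT
  have hX : 0 < T / (2 * Real.pi) * Real.log T := by positivity
  have hTL : T * Real.log T = 2 * Real.pi * (T / (2 * Real.pi) * Real.log T) := by field_simp
  have hpos : 0 < T * Real.log T := by positivity
  obtain ⟨X, hXdef⟩ : ∃ X : ℝ, X = T / (2 * Real.pi) * Real.log T := ⟨_, rfl⟩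
  rw [← hXdef] at a1 a2 hX hTL ⊢
  have s1 : (fun i => α i - -e - e) = α := by funext i; ring
  have s2 : (fun i => β i + -e + e) = β := by funext i; ring
  have a4' := a4.1
  rw [s1, s2] at a4'
  have a3' := a3.2
  rw [hTL] at a3' a4'
  rw [Real.dist_eq, abs_lt] at a1 a2 g1 g2
  have b1 : N2 T α β / X ≤ N1 T (fun i => α i - e) (fun i => β i + e) / X + e * (2 * Real.pi) := by
    rw [div_add' _ _ _ hX.ne']
    apply div_le_div_of_nonneg_right _ hX.le
    linarith
  have b2 : N1 T (fun i => α i - -e) (fun i => β i + -e) / X ≤ N2 T α β / X + e * (2 * Real.pi) := by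
    rw [div_add' _ _ _ hX.ne']
    apply div_le_div_of_nonneg_right _ hX.le
    linarith
  rw [Real.dist_eq, abs_lt]
  constructor <;> linarith [a1.1, a1.2, a2.1, a2.2, g1.1, g1.2, g2.1, g2.2]

/-- the numbers of tuples -/
noncomputable def nZ (k : ℕ) (T : ℝ) (α β : Fin k → ℝ) : ℝ := ((Tuples ZetaZ (fun z => z.im) T α β).ncard : ℝ)

noncomputable def nH (k : ℕ) (t : ℝ → ℝ) (T : ℝ) (α β : Fin k → ℝ) : ℝ :=
  ((Tuples (Zi (Ht (t T))) (fun z => z.re / 2) T α β).ncard : ℝ)

theorem law_equiv {k : ℕ} {t : ℝ → ℝ} (ht : ∀ T, 0 ≤ t T)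
    (ht2 : Tendsto (fun T => t T * Real.log T ^ 2) atTop (𝓝 0)) {D : (Fin k → ℝ) → ℝ}
    (hD : LocallyIntegrable D) : Law (nZ k) D ↔ Law (nH k t) D := by
  have hev : ∀ (α β : Fin k → ℝ) (ε : ℝ), 0 < ε → ∀ᶠ T : ℝ in atTop,
      nZ k T α β ≤ nH k t T (fun i => α i - ε) (fun i => β i + ε) + ε * (T * Real.log T) ∧
      nH k t T α β ≤ nZ k T (fun i => α i - ε) (fun i => β i + ε) + ε * (T * Real.log T) := by
    intro α β ε hε
    obtain ⟨δ, T0, hδ, hT0, h⟩ := Pool.Agent.R838.ST.cmp k α β ε hε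
    have h1 : ∀ᶠ T : ℝ in atTop, t T * Real.log T ^ 2 < δ := ht2.eventually_lt_const hδ
    filter_upwards [h1, eventually_ge_atTop T0, eventually_gt_atTop (1 : ℝ)] with T h2 h3 h4
    refine h T (t T) h3 (ht T) ?_
    have hL : 0 < Real.log T := Real.log_pos h4
    rw [le_div_iff₀ (by positivity)]
    exact h2.le
  constructor
  · exact law_tr hD hev
  · exact law_tr hD fun α β ε hε => (hev α β ε hε).mono fun T hT => hT.symm

/-- Many pairs at the mean distance, if the time is large. -/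
theorem many_one {t : ℝ → ℝ} (ht0 : ∀ T, 0 ≤ t T) {A : ℝ} (hA : ∀ᶠ T : ℝ in atTop, t T * Real.log T ≤ A)
    (ht : Tendsto (fun T => t T * Real.log T ^ 2) atTop atTop) :
    ∃ c : ℝ, 0 < c ∧ ∀ ε : ℝ, 0 < ε → ∀ᶠ T : ℝ in atTop,
      c * (T * Real.log T) ≤ nH 1 t T (fun _ => 1 - ε) (fun _ => 1 + ε) := by
  classical
  obtain ⟨c, T0, hc, hT0, htot⟩ := Pool.Agent.W186.SD.HH.toth
  refine ⟨c / 16, by positivity, fun ε hε => ?_⟩
  have hpi := Real.pi_gt_three
  have hpi2 := Real.pi_lt_four
  -- the precision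
  obtain ⟨e, he⟩ : ∃ e : ℝ, e = min ε 1 / 2 := ⟨_, rfl⟩
  have he0 : 0 < e := by rw [he]; have : 0 < min ε 1 := lt_min hε one_pos; positivity
  have he1 : e ≤ 1 / 2 := by rw [he]; have := min_le_right ε 1; linarith
  have he2 : 2 * e ≤ ε := by rw [he]; have := min_le_left ε 1; linarith
  obtain ⟨K, T1, hK, hT1, h⟩ := Pool.Agent.R838.IS.irrB Pool.Agent.R838.ST.stb_xi Pool.Agent.R838.ST.unit0_xi
    e (c / 16) (|A| + 1) he0 (by positivity) (by positivity)
  filter_upwards [hA, ht.eventually_ge_atTop (4 * K), eventually_ge_atTop T1, eventually_ge_atTop (4 * T0),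
    eventually_ge_atTop (Real.exp (8 * (|A| + 1) + 20 / e)), eventually_gt_atTop (16 : ℝ)] with T h1 h2 h3 h4 h5 h6
  have hT0' : 0 < T := by linarith
  have hL : 0 < Real.log T := Real.log_pos (by linarith)
  have hLbig : 8 * (|A| + 1) + 20 / e ≤ Real.log T := by rw [Real.le_log_iff_exp_le hT0']; exact h5
  have hA0 := abs_nonneg A
  have hA1 := le_abs_self A
  have h20 : 0 < 20 / e := by positivity
  have hLe : 20 ≤ Real.log T * e := by
    have : 20 / e ≤ Real.log T := by linarith
    rwa [div_le_iff₀ he0] at this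
  have hL8 : 8 * (|A| + 1) ≤ Real.log T := by linarith
  obtain ⟨τ, hτ⟩ : ∃ τ : ℝ, τ = t T / 4 := ⟨_, rfl⟩
  have hτ0 : 0 ≤ τ := by rw [hτ]; have := ht0 T; positivity
  have hτA : τ * Real.log T ≤ |A| + 1 := by
    have e1 : τ * Real.log T = t T * Real.log T / 4 := by rw [hτ]; ring
    rw [e1]
    linarith
  have hτ8 : τ ≤ 1 / 8 := by
    by_contra hcon
    push Not at hcon
    have h7 : 1 / 8 * (8 * (|A| + 1)) < τ * Real.log T := by
      calc 1 / 8 * (8 * (|A| + 1)) < τ * (8 * (|A| + 1)) := mul_lt_mul_of_pos_right hcon (by positivity)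
        _ ≤ τ * Real.log T := mul_le_mul_of_nonneg_left hL8 hτ0
    linarith
  have hirr := h T τ h3 (by
    have e1 : τ * Real.log T ^ 2 = t T * Real.log T ^ 2 / 4 := by rw [hτ]; ring
    rw [e1]; linarith) hτA
  obtain ⟨S, hS, hSc⟩ := htot (T / 4) τ (by linarith) hτ0 hτ8
  obtain ⟨hdiff, hstrip⟩ := Pool.Agent.R838.IS.XT_pr (ht0 T)
  rw [← hτ] at hdiff hstrip
  -- the two parts
  have hlog4 : Real.log T / 2 ≤ Real.log (T / 4) := by
    rw [Real.log_div hT0'.ne' (by norm_num)]
    have h7 : Real.log 16 ≤ Real.log T := Real.log_le_log (by norm_num) h6.le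
    have h8 : Real.log 16 = 2 * Real.log 4 := by
      rw [show (16 : ℝ) = 4 ^ 2 by norm_num, Real.log_pow]; norm_num
    linarith
  have hcount : c / 8 * (T * Real.log T) ≤ ∑ s ∈ S, (analyticOrderNatAt (XT τ) s : ℝ) := by
    refine le_trans ?_ hSc
    have h9 : c * (T / 4) * (Real.log T / 2) ≤ c * (T / 4) * Real.log (T / 4) :=
      mul_le_mul_of_nonneg_left hlog4 (by positivity)
    calc c / 8 * (T * Real.log T) = c * (T / 4) * (Real.log T / 2) := by ring
      _ ≤ _ := h9
  rw [← Finset.sum_filter_add_sum_filter_not S (fun s => regH XT e τ s)] at hcount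
  obtain ⟨R, hR⟩ : ∃ R : Finset ℂ, R = S.filter (fun s => regH XT e τ s) := ⟨_, rfl⟩
  obtain ⟨Q, hQ⟩ : ∃ Q : Finset ℂ, Q = S.filter (fun s => ¬ regH XT e τ s) := ⟨_, rfl⟩
  rw [← hR, ← hQ] at hcount
  have hRm : ∀ s ∈ R, XT τ s = 0 ∧ T / 4 < s.im ∧ s.im ≤ T / 2 ∧ regH XT e τ s := by
    intro s hs
    rw [hR, Finset.mem_filter] at hs
    obtain ⟨a1, a2, a3⟩ := hS s hs.1
    exact ⟨a1, a2, by linarith, hs.2⟩
  have hord1 : ∀ s : ℂ, XT τ s = 0 → deriv (XT τ) s ≠ 0 → analyticOrderNatAt (XT τ) s = 1 := by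
    intro s hs hd
    have h7 := (Pool.Agent.W186.SD.CntH.XT_ana hτ0 s).analyticOrderAt_eq_one_of_zero_deriv_ne_zero hs hd
    unfold analyticOrderNatAt
    rw [h7]; rfl
  have hRc : ∑ s ∈ R, (analyticOrderNatAt (XT τ) s : ℝ) = R.card := by
    rw [Finset.sum_congr rfl (g := fun _ => (1 : ℝ)) (fun s hs => by
      obtain ⟨a1, -, -, a4⟩ := hRm s hs
      rw [hord1 s a1 a4.2.1, Nat.cast_one])]
    simp
  have hQc : ∑ s ∈ Q, (analyticOrderNatAt (XT τ) s : ℝ) ≤ c / 16 * (T * Real.log T) := by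
    refine le_trans ?_ hirr
    have h7 := (Pool.Agent.R838.ST.zi_card (XT τ) Q).2
    have h8 : {p : ℂ × ℕ | p ∈ Zi (XT τ) ∧ p.1 ∈ Q} ⊆
        ZS (XT τ) (fun z => (0 < z.im ∧ z.im ≤ T) ∧ ¬ regH XT e τ z) := by
      rintro p ⟨a1, a2⟩
      rw [hQ, Finset.mem_filter] at a2
      obtain ⟨b1, b2, b3⟩ := hS p.1 a2.1
      exact ⟨a1, ⟨by linarith, by linarith⟩, a2.2⟩
    have h9 := Set.ncard_le_ncard h8 (Pool.Agent.R838.IS.ZP_f hdiff hstrip _ _ _)
    rw [h7] at h9
    exact_mod_cast h9
  rw [hRc] at hcount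
  have hRbig : c / 16 * (T * Real.log T) ≤ (R.card : ℝ) := by
    have e1 : c / 8 * (T * Real.log T) = c / 16 * (T * Real.log T) + c / 16 * (T * Real.log T) := by ring
    rw [e1] at hcount
    linarith
  refine hRbig.trans ?_
  -- the map
  have hch : ∀ s : ℂ, ∃ g : ℝ, s ∈ R → 0 < g ∧ |g * Om s.im - Real.pi| ≤ e ∧
      XT τ (s + g * Complex.I) = 0 ∧ deriv (XT τ) (s + g * Complex.I) ≠ 0 := by
    intro s
    by_cases hs : s ∈ R
    · obtain ⟨-, -, -, -, -, g, b1, b2, b3, b4, -⟩ := hRm s hs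
      exact ⟨g, fun _ => ⟨b1, b2, b3, b4⟩⟩
    · exact ⟨0, fun h => absurd h hs⟩
  choose g hg using hch
  unfold nH
  rw [Pool.Agent.R838.ST.ht_ct (ht0 T), ← hτ]
  have hfin : (CT (XT τ) T (fun _ : Fin 1 => 1 - ε) (fun _ => 1 + ε)).Finite := by
    refine Set.Finite.subset ?_ (Pool.Agent.R838.ST.CT_sub (by linarith))
    have hOm : Om T = Real.log T / 2 := rfl
    have hc0 : 0 ≤ Real.pi / Om T := by rw [hOm]; positivity
    refine Pool.Agent.R838.ST.TP_fin hdiff hstrip (H := (1 + ε) * (Real.pi / Om T)) (by positivity)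
      (fun i => ?_) (fun i => le_rfl) (u := 0) (v := T) (fun y hy => ⟨hy.1.le, hy.2⟩)
    have h7 : 0 ≤ 2 * (Real.pi / Om T) := by positivity
    have e1 : (1 - ε) * (Real.pi / Om T) = 2 * (Real.pi / Om T) - (1 + ε) * (Real.pi / Om T) := by ring
    rw [e1]
    linarith
  have hmap : ∀ s ∈ R, (![((s, 0) : ℂ × ℕ), (s + g s * Complex.I, 0)] : Fin (1 + 1) → ℂ × ℕ) ∈
      CT (XT τ) T (fun _ : Fin 1 => 1 - ε) (fun _ => 1 + ε) := by
    intro s hs
    obtain ⟨a1, a2, a3, a4⟩ := hRm s hs
    obtain ⟨b1, b2, b3, b4⟩ := hg s hs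
    have him : (s + g s * Complex.I).im = s.im + g s := by simp
    have hy0 : 0 < s.im := by linarith
    have hly : Real.log T / 2 ≤ Real.log s.im := hlog4.trans (Real.log_le_log (by positivity) a2.le)
    have hly0 : 0 < Real.log s.im := by linarith
    have hly1 : Real.log s.im ≤ Real.log T := Real.log_le_log hy0 (by linarith)
    have hly2 : Real.log T ≤ Real.log s.im + 2 := by
      have h7 : Real.log (T / 4) ≤ Real.log s.im := Real.log_le_log (by positivity) a2.le
      rw [Real.log_div hT0'.ne' (by norm_num)] at h7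
      have h8 : Real.log 4 = 2 * Real.log 2 := by
        rw [show (4 : ℝ) = 2 ^ 2 by norm_num, Real.log_pow]; norm_num
      have := Real.log_two_lt_d9
      linarith
    have hOm : Om s.im = Real.log s.im / 2 := rfl
    rw [hOm, abs_le] at b2
    have hglog : g s * Real.log s.im ≤ 9 := by
      have e1 : g s * (Real.log s.im / 2) = g s * Real.log s.im / 2 := by ring
      rw [e1] at b2
      linarith [b2.2]
    have hlog20 : 40 ≤ Real.log T := by
      have : Real.log T * e ≤ Real.log T * (1 / 2) := mul_le_mul_of_nonneg_left he1 hL.le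
      linarith
    have hg1 : g s ≤ 1 := by
      have h7 : g s * (Real.log T / 2) ≤ 9 := (mul_le_mul_of_nonneg_left hly b1.le).trans hglog
      by_contra hcon
      push Not at hcon
      have : 1 * (Real.log T / 2) < g s * (Real.log T / 2) := mul_lt_mul_of_pos_right hcon (by positivity)
      linarith
    -- the normalised difference
    have hnd : |g s * (Real.log T / (2 * Real.pi)) - 1| ≤ ε := by
      have e1 : g s * (Real.log T / (2 * Real.pi)) - 1 = (g s * (Real.log s.im / 2) - Real.pi +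
          g s * ((Real.log T - Real.log s.im) / 2)) / Real.pi := by
        field_simp
        ring
      rw [e1, abs_div, abs_of_pos Real.pi_pos, div_le_iff₀ Real.pi_pos]
      have h7 : 0 ≤ g s * ((Real.log T - Real.log s.im) / 2) := mul_nonneg b1.le (by linarith)
      have h8 : g s * ((Real.log T - Real.log s.im) / 2) ≤ e := by
        have h9 : g s * ((Real.log T - Real.log s.im) / 2) ≤ g s * 1 := mul_le_mul_of_nonneg_left (by linarith) b1.le
        have h10 : g s ≤ e := by
          have h11 : g s * (Real.log T / 2) ≤ 9 := (mul_le_mul_of_nonneg_left hly b1.le).trans hglog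
          by_contra hcon
          push Not at hcon
          have h12 : e * (Real.log T / 2) < g s * (Real.log T / 2) := mul_lt_mul_of_pos_right hcon (by positivity)
          have e2 : e * (Real.log T / 2) = Real.log T * e / 2 := by ring
          rw [e2] at h12
          linarith
        linarith
      have h13 : 2 * e ≤ ε * Real.pi := by
        have : ε * 1 ≤ ε * Real.pi := mul_le_mul_of_nonneg_left (by linarith) hε.le
        linarith
      rw [abs_le]
      constructor <;> linarith [b2.1, b2.2]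
    rw [abs_le] at hnd
    refine ⟨fun i => ?_, fun i j hij => ?_, fun i => ?_, fun i => ?_⟩
    · fin_cases i
      · show 0 < analyticOrderNatAt (XT τ) s
        rw [hord1 s a1 a4.2.1]; exact one_pos
      · show 0 < analyticOrderNatAt (XT τ) (s + g s * Complex.I)
        rw [hord1 _ b3 b4]; exact one_pos
    · have hne : s ≠ s + g s * Complex.I := by
        intro h
        have h7 := congrArg Complex.im h
        rw [him] at h7
        linarith
      fin_cases i <;> fin_cases j
      · rfl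
      · exact absurd (congrArg Prod.fst hij) hne
      · exact absurd (congrArg Prod.fst hij).symm hne
      · rfl
    · fin_cases i
      · show 0 < s.im ∧ s.im ≤ T
        exact ⟨hy0, by linarith⟩
      · show 0 < (s + g s * Complex.I).im ∧ (s + g s * Complex.I).im ≤ T
        rw [him]
        exact ⟨by linarith, by linarith⟩
    · fin_cases i
      show 1 - ε ≤ ((s + g s * Complex.I).im - s.im) * (Real.log T / (2 * Real.pi)) ∧
        ((s + g s * Complex.I).im - s.im) * (Real.log T / (2 * Real.pi)) ≤ 1 + ε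
      rw [him, add_sub_cancel_left]
      exact ⟨by linarith [hnd.1], by linarith [hnd.2]⟩
  have hinj : Set.InjOn (fun s : ℂ => (![((s, 0) : ℂ × ℕ), (s + g s * Complex.I, 0)] : Fin (1 + 1) → ℂ × ℕ)) R := by
    intro s _ s' _ h
    have h7 := congrFun h 0
    exact congrArg Prod.fst h7
  have h7 := Set.ncard_le_ncard_of_injOn _ (fun s hs => hmap s hs) hinj hfin
  rw [Set.ncard_coe_finset] at h7
  exact_mod_cast h7

/-- No density. -/
theorem no_law {t : ℝ → ℝ} (ht0 : ∀ T, 0 ≤ t T) {A : ℝ} (hA : ∀ᶠ T : ℝ in atTop, t T * Real.log T ≤ A)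
    (ht : Tendsto (fun T => t T * Real.log T ^ 2) atTop atTop) {D : (Fin 1 → ℝ) → ℝ} (hD : LocallyIntegrable D) :
    ¬ Law (nH 1 t) D := by
  intro hlaw
  obtain ⟨c, hc, hm⟩ := many_one ht0 hA ht
  have hpi := Real.pi_pos
  have hbc := box_cont hD (fun _ => 1) (fun _ => 1)
  have hz : ∫ u in Icc (fun _ : Fin 1 => (1 : ℝ)) (fun _ => 1), D u = 0 := by
    rw [Icc_self]
    apply setIntegral_measure_zero
    rw [← Icc_self, Real.volume_Icc_pi]
    simp
  rw [hz, Metric.tendsto_nhds] at hbc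
  have h1 := hbc (2 * Real.pi * c / 2) (by positivity)
  obtain ⟨e, he1, he2⟩ := ((h1.filter_mono (nhdsWithin_le_nhds (s := Ioi 0))).and self_mem_nhdsWithin).exists
  have he0 : 0 < e := he2
  have h2 := hlaw (fun _ => 1 - e) (fun _ => 1 + e) (fun _ => by linarith)
  rw [Metric.tendsto_nhds] at h2
  obtain ⟨T, a1, a2, a3⟩ := ((h2 (2 * Real.pi * c / 2) (by positivity)).and
    ((hm e he0).and (eventually_gt_atTop (1 : ℝ)))).exists
  have hL : 0 < Real.log T := Real.log_pos a3
  rw [Real.dist_eq, sub_zero, abs_lt] at he1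
  rw [Real.dist_eq, abs_lt] at a1
  have hX : 0 < T / (2 * Real.pi) * Real.log T := by positivity
  have h3 : 2 * Real.pi * c ≤ nH 1 t T (fun _ => 1 - e) (fun _ => 1 + e) / (T / (2 * Real.pi) * Real.log T) := by
    rw [le_div_iff₀ hX]
    calc 2 * Real.pi * c * (T / (2 * Real.pi) * Real.log T) = c * (T * Real.log T) := by field_simp
      _ ≤ _ := a2
  linarith [a1.2, he1.2]

end Pool.Agent.N731.HV
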