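import Pool.Agent.N731.HV.AH

set_option autoImplicit false

/-!
# The Alternative Hypothesis along the heat flow
-/

namespace Pool.Agent.N731.HV

open Filter Topology Set
open Pool.Agent.R838.ST (CP SP ZOrd HOrd BS NearE ZetaZ Zi)
open Pool.Agent.R838.IS (closeZ closeH Cz Ch)
open Pool.Agent.H986R2.DBN (XT Ht)

/-- consecutive pairs whose normalised spacing is not close to `1` -/
def BD (A : Set ℝ) (T ε : ℝ) : Set (ℝ × ℝ) :=
  {p | p ∈ CP A ∧ 0 < p.1 ∧ p.2 ≤ T ∧ ε ≤ |(p.2 - p.1) * (Real.log T / (2 * Real.pi)) - 1|}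

lemma BD_eq (A : Set ℝ) (T ε : ℝ) : BD A T ε = BS A T ε 0 T := by
  ext p
  constructor
  · rintro ⟨h1, h2, h3, h4⟩
    exact ⟨h1, h2, by linarith [h1.1], h3, h4⟩
  · rintro ⟨h1, h2, -, h3, h4⟩
    exact ⟨h1, h2, h3, h4⟩

lemma BD_fin {t : ℝ} (ht : 0 ≤ t) (T ε : ℝ) : (BD (HOrd (Ht t)) T ε).Finite := by
  rw [BD_eq, Pool.Agent.R838.ST.ht_od ht]
  exact (Pool.Agent.R838.ST.BS_fin (Pool.Agent.R838.IS.XT_pr ht).1 (Pool.Agent.R838.IS.XT_pr ht).2 T ε 0 T le_rfl).2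

theorem cry_ht {t : ℝ → ℝ} (ht0 : ∀ T, 0 ≤ t T) {A : ℝ} (hA : ∀ᶠ T : ℝ in atTop, t T * Real.log T ≤ A)
    (ht : Tendsto (fun T => t T * Real.log T ^ 2) atTop atTop) {ε η : ℝ} (hε : 0 < ε) (hη : 0 < η) :
    ∀ᶠ T : ℝ in atTop, ((BD (HOrd (Ht (t T))) T ε).ncard : ℝ) ≤ η * (T * Real.log T) := by
  obtain ⟨e, he⟩ : ∃ e : ℝ, e = min (min ε η) 1 := ⟨_, rfl⟩
  have he0 : 0 < e := by rw [he]; exact lt_min (lt_min hε hη) one_pos
  have he1 : e ≤ 1 := by rw [he]; exact min_le_right _ _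
  have he2 : e ≤ ε := by rw [he]; exact (min_le_left _ _).trans (min_le_left _ _)
  have he3 : e ≤ η := by rw [he]; exact (min_le_left _ _).trans (min_le_right _ _)
  obtain ⟨K, T0, hK, hT0, h⟩ := Pool.Agent.R838.ST.cryB Pool.Agent.R838.ST.stb_xi Pool.Agent.R838.ST.unit0_xi
    e (|A| + 1) he0 he1 (by positivity)
  filter_upwards [hA, ht.eventually_ge_atTop (4 * K), eventually_ge_atTop T0, eventually_gt_atTop (1 : ℝ)]
    with T h1 h2 h3 h4
  have hL : 0 < Real.log T := Real.log_pos h4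
  have h5 := h T (t T / 4) h3 (by linarith [show t T / 4 * Real.log T ^ 2 = t T * Real.log T ^ 2 / 4 by ring])
    (by
      have e1 : t T / 4 * Real.log T = t T * Real.log T / 4 := by ring
      have := le_abs_self A
      have := abs_nonneg A
      rw [e1]
      linarith)
  rw [← Pool.Agent.R838.ST.ht_od (ht0 T), ← BD_eq] at h5
  have h6 : BD (HOrd (Ht (t T))) T ε ⊆ BD (HOrd (Ht (t T))) T e := by
    rintro p ⟨a1, a2, a3, a4⟩
    exact ⟨a1, a2, a3, he2.trans a4⟩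
  have h7 := Set.ncard_le_ncard h6 (BD_fin (ht0 T) T e)
  have h8 : ((BD (HOrd (Ht (t T))) T ε).ncard : ℝ) ≤ ((BD (HOrd (Ht (t T))) T e).ncard : ℝ) := by exact_mod_cast h7
  have hD : 0 ≤ T * Real.log T := by positivity
  exact h8.trans (h5.trans (mul_le_mul_of_nonneg_right he3 hD))

theorem near_large {t : ℝ → ℝ} (ht0 : ∀ T, 0 ≤ t T) {A : ℝ} (hA : ∀ᶠ T : ℝ in atTop, t T * Real.log T ≤ A)
    (ht : Tendsto (fun T => t T * Real.log T ^ 2) atTop atTop) {E : Set ℝ} (hE : (1 : ℝ) ∈ E) :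
    NearE (fun T α β => ((SP (HOrd (Ht (t T))) T α β).ncard : ℝ)) E := by
  intro α β hα hαβ hdis
  have h1 : ¬ (α ≤ 1 ∧ 1 ≤ β) := fun h => Set.disjoint_left.1 hdis ⟨h.1, h.2⟩ hE
  obtain ⟨c, hc, hcc⟩ : ∃ c : ℝ, 0 < c ∧ ∀ u : ℝ, α ≤ u → u ≤ β → c ≤ |u - 1| := by
    rcases le_or_gt α 1 with h2 | h2
    · have h3 : β < 1 := by
        by_contra hcon
        push Not at hcon
        exact h1 ⟨h2, hcon⟩
      refine ⟨1 - β, by linarith, fun u _ hu => ?_⟩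
      rw [abs_sub_comm]
      exact le_trans (by linarith) (le_abs_self _)
    · exact ⟨α - 1, by linarith, fun u hu _ => le_trans (by linarith) (le_abs_self _)⟩
  rw [Metric.tendsto_nhds]
  intro η hη
  filter_upwards [cry_ht ht0 hA ht hc (show 0 < η / 2 by positivity), eventually_gt_atTop (1 : ℝ)] with T h2 hT
  have hL : 0 < Real.log T := Real.log_pos hT
  have hD : 0 < T * Real.log T := by positivity
  have h3 : SP (HOrd (Ht (t T))) T α β ⊆ BD (HOrd (Ht (t T))) T c := by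
    rintro p ⟨a1, a2, a3, a4, a5⟩
    exact ⟨a1, a2, a3, hcc _ a4 a5⟩
  have h4 := Set.ncard_le_ncard h3 (BD_fin (ht0 T) T c)
  have h5 : ((SP (HOrd (Ht (t T))) T α β).ncard : ℝ) ≤ ((BD (HOrd (Ht (t T))) T c).ncard : ℝ) := by
    exact_mod_cast h4
  rw [Real.dist_eq, sub_zero, abs_of_nonneg (by positivity), div_lt_iff₀ hD]
  have h7 : η / 2 * (T * Real.log T) < η * (T * Real.log T) := mul_lt_mul_of_pos_right (by linarith) hD
  linarith

/-- few zeros have neighbours at less than `L` mean spacings -/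
def FewC (L : ℝ) (J : ℝ → ℝ → ℝ) : Prop := ∀ lam η : ℝ, lam < L → 0 < η →
  ∀ᶠ T : ℝ in atTop, J T lam ≤ η * (T * Real.log T)

lemma few_tr {L : ℝ} (hL : 0 < L) {J1 J2 : ℝ → ℝ → ℝ}
    (hJ : ∀ ε lam : ℝ, 0 < ε → 0 ≤ lam → lam ≤ L →
      ∀ᶠ T in atTop, J2 T lam ≤ J1 T (lam + ε) + ε * (T * Real.log T))
    (hm1 : ∀ lam lam' : ℝ, lam ≤ lam' → ∀ᶠ T in atTop, J1 T lam ≤ J1 T lam')
    (hm2 : ∀ lam lam' : ℝ, lam ≤ lam' → ∀ᶠ T in atTop, J2 T lam ≤ J2 T lam')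
    (h : FewC L J1) : FewC L J2 := by
  intro lam η hlam hη
  obtain ⟨l1, hl1⟩ : ∃ l1 : ℝ, l1 = max lam 0 := ⟨_, rfl⟩
  have h3 : 0 ≤ l1 := by rw [hl1]; exact le_max_right _ _
  have h4 : lam ≤ l1 := by rw [hl1]; exact le_max_left _ _
  have h5 : l1 < L := by rw [hl1]; exact max_lt hlam hL
  obtain ⟨ε, hε⟩ : ∃ ε : ℝ, ε = min ((L - l1) / 2) (η / 2) := ⟨_, rfl⟩
  have hε0 : 0 < ε := by rw [hε]; exact lt_min (by linarith) (by linarith)
  have hε1 : ε ≤ (L - l1) / 2 := by rw [hε]; exact min_le_left _ _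
  have hε2 : ε ≤ η / 2 := by rw [hε]; exact min_le_right _ _
  filter_upwards [h ((L + l1) / 2) (η / 2) (by linarith) (by linarith), hJ ε l1 hε0 h3 h5.le,
    hm1 (l1 + ε) ((L + l1) / 2) (by linarith), hm2 lam l1 h4, eventually_ge_atTop (1 : ℝ)] with T a1 a2 a3 a4 hT
  have hW : 0 ≤ T * Real.log T := mul_nonneg (by linarith) (Real.log_nonneg hT)
  have := mul_le_mul_of_nonneg_right hε2 hW
  have e : η * (T * Real.log T) = η / 2 * (T * Real.log T) + η / 2 * (T * Real.log T) := by ring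
  rw [e]
  linarith

theorem few_equiv {t : ℝ → ℝ} (ht : ∀ T, 0 ≤ t T)
    (ht2 : Tendsto (fun T => t T * Real.log T ^ 2) atTop (𝓝 0)) {L : ℝ} (hL : 0 < L) : FewC L Cz ↔ FewC L (Ch t) := by
  have hz : ∀ lam lam' : ℝ, lam ≤ lam' → ∀ᶠ T in atTop, Cz T lam ≤ Cz T lam' := by
    intro lam lam' h
    filter_upwards [eventually_gt_atTop (1 : ℝ)] with T hT
    exact Pool.Agent.R838.IS.closeZ_mono hT h
  have hh : ∀ lam lam' : ℝ, lam ≤ lam' → ∀ᶠ T in atTop, Ch t T lam ≤ Ch t T lam' := by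
    intro lam lam' h
    filter_upwards [eventually_gt_atTop (1 : ℝ)] with T hT
    exact Pool.Agent.R838.IS.closeH_mono (ht T) hT h
  constructor
  · refine few_tr hL (fun ε lam hε hl hlL => ?_) hz hh
    obtain ⟨δ, T0, hδ, hT0, h⟩ := Pool.Agent.R838.IS.cmpD L hL.le ε hε
    filter_upwards [eventually_ge_atTop T0, Pool.Agent.R838.IS.ev_le2 ht2 hδ] with T h1 h2
    exact (h T (t T) lam h1 (ht T) h2 hl hlL).2
  · refine few_tr hL (fun ε lam hε hl hlL => ?_) hh hz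
    obtain ⟨δ, T0, hδ, hT0, h⟩ := Pool.Agent.R838.IS.cmpD L hL.le ε hε
    filter_upwards [eventually_ge_atTop T0, Pool.Agent.R838.IS.ev_le2 ht2 hδ] with T h1 h2
    exact (h T (t T) lam h1 (ht T) h2 hl hlL).1

theorem few_ah (hAH : AHz) : FewC (1 / 2) Cz := by
  intro lam η hlam hη
  filter_upwards [ah_close hAH hlam, eventually_ge_atTop (1 : ℝ)] with T h1 hT
  unfold Cz
  rw [h1, Set.ncard_empty, Nat.cast_zero]
  exact mul_nonneg hη.le (mul_nonneg (by linarith) (Real.log_nonneg hT))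

theorem few_large {t : ℝ → ℝ} {A : ℝ} (hA : ∀ᶠ T : ℝ in atTop, t T * Real.log T ≤ A)
    (ht : Tendsto (fun T => t T * Real.log T ^ 2) atTop atTop) : FewC (1 / 2) (Ch t) :=
  fun _ _ hlam hη => Pool.Agent.R838.IS.close_large hA ht (by linarith) hη

end Pool.Agent.N731.HV
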